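import Pool.Agent.Q17.DC.Stm

/-! # Project DC, job ALG: an algebraic number divisible by all powers of p is zero -/

set_option autoImplicit false
set_option linter.unusedSectionVars false

open Pool.Agent.H254R3.IN

namespace Pool.Agent.Q111.DC

theorem alg_zero (p : ℕ) [Fact p.Prime] (O : ValuationSubring ℂ) (hp : (p : ℂ) ∈ O.nonunits)
    (α : ℂ) (hα : IsAlgebraic ℚ α) (h : ∀ n : ℕ, ∃ c ∈ O, α = (p : ℂ) ^ n * c) : α = 0 := by
  by_contra h0
  have hpp : p.Prime := Fact.out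
  have hp0 : (p : ℂ) ≠ 0 := by exact_mod_cast hpp.ne_zero
  have h1 : IsAlgebraic ℚ α⁻¹ := hα.inv
  have h2 : IsAlgebraic ℤ α⁻¹ := (IsFractionRing.isAlgebraic_iff ℤ ℚ ℂ).mpr h1
  obtain ⟨y, hy0, hy⟩ := h2.exists_integral_multiple
  have h3 : (y : ℂ) * α⁻¹ ∈ O := by
    have := mem_of_isIntegral (O := O) hy
    rwa [zsmul_eq_mul] at this
  -- every power of p divides y in O
  have h4 : ∀ n : ℕ, ∃ c ∈ O, (y : ℂ) = (p : ℂ) ^ n * c := by
    intro n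
    obtain ⟨c, hc, hc'⟩ := h n
    refine ⟨c * ((y : ℂ) * α⁻¹), O.mul_mem _ _ hc h3, ?_⟩
    rw [← mul_assoc, ← hc', mul_comm (y : ℂ), mul_inv_cancel_left₀ h0]
  have h5 : y.natAbs ≠ 0 := Int.natAbs_ne_zero.mpr hy0
  obtain ⟨k, m, hm, hkm⟩ := Nat.exists_eq_pow_mul_and_not_dvd h5 p hpp.ne_one
  obtain ⟨c, hc, hc'⟩ := h4 (k + 1)
  have h6 : ∃ c' ∈ O, (y.natAbs : ℂ) = (p : ℂ) ^ (k + 1) * c' := by
    rcases Int.natAbs_eq y with h | h
    · refine ⟨c, hc, ?_⟩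
      rw [← hc', ← Int.cast_natCast, ← h]
    · refine ⟨-c, O.neg_mem _ hc, ?_⟩
      rw [mul_neg, ← hc']
      have : ((y.natAbs : ℤ) : ℂ) = ((-y : ℤ) : ℂ) := by
        congr 1
        omega
      push_cast at this
      simpa using this
  obtain ⟨c', hc'O, h7⟩ := h6
  rw [hkm] at h7
  push_cast at h7
  rw [pow_succ, mul_assoc] at h7
  have h8 : (m : ℂ) = p * c' := mul_left_cancel₀ (pow_ne_zero k hp0) h7
  have hm0 : (m : ℂ) ≠ 0 := by
    intro hz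
    have : m = 0 := by exact_mod_cast hz
    exact hm (this ▸ dvd_zero p)
  have h9 : (m : ℂ)⁻¹ ∈ O := nat_inv_mem hp hm
  have h10 : (p : ℂ) * (c' * (m : ℂ)⁻¹) = 1 := by
    rw [← mul_assoc, ← h8, mul_inv_cancel₀ hm0]
  exact red_ne_zero_of_mul (nonunits_mem hp) (O.mul_mem _ _ hc'O h9) h10 (red_eq_zero hp)

theorem t_ALG : Pool.Agent.Q17.DC.S_ALG := by
  intro p _ O hp α hα h
  exact alg_zero p O hp α hα h

end Pool.Agent.Q111.DC
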