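import Pool.Agent.Q17.DC.Stm

/-! # Project DC, job DEF: defects and residues of corresponding characters -/

set_option autoImplicit false
set_option linter.unusedSectionVars false

open scoped BigOperators Classical
open Pool.Agent.H254R3.IN Pool.Agent.Helper884

noncomputable section

namespace Pool.Agent.Q111.DC

theorem def_res {G : Type} [Group G] [Fintype G] (H : Subgroup G) (p : ℕ) [hp : Fact p.Prime]
    (O : ValuationSubring ℂ) (hpO : (p : ℂ) ∈ O.nonunits) (x : H)
    (hx : ∀ g : G, g⁻¹ * x * g ∈ H → g ∈ H) (χ : G → ℂ) (ψ : H → ℂ) (ε : ℤ) (hχ : IsIrr χ)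
    (hψ : IsIrr ψ) (hε : ε = 1 ∨ ε = -1) (he : χ x = ε * ψ x)
    (hc : omega χ (x : G) - ∑ᶠ y : {y : H // IsConj (x : G) (y : G)}, ψ y / ψ 1 ∈ O.nonunits)
    (hu : omega χ (x : G) ∉ O.nonunits) (n m : ℕ) (hn : (n : ℂ) = χ 1) (hm : (m : ℂ) = ψ 1) :
    omega ψ x ∉ O.nonunits ∧
    (Nat.card G).factorization p + m.factorization p =
      (Nat.card H).factorization p + n.factorization p ∧
    ((pPrimePart p (Nat.card G) * pPrimePart p m : ℕ) : ℤ) ≡
      ε * ((pPrimePart p (Nat.card H) * pPrimePart p n : ℕ) : ℤ) [ZMOD p] := by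
  have hfus : ∀ y : H, IsConj (x : G) (y : G) ↔ IsConj x y := by
    intro y
    constructor
    · intro h
      obtain ⟨c, hc⟩ := isConj_iff.mp h
      have h1 : c⁻¹ ∈ H := hx c⁻¹ (by rw [inv_inv, hc]; exact y.2)
      have h2 : c ∈ H := by simpa using H.inv_mem h1
      exact isConj_iff.mpr ⟨⟨c, h2⟩, Subtype.ext hc⟩
    · intro h
      obtain ⟨c, hc⟩ := isConj_iff.mp h
      exact isConj_iff.mpr ⟨c, congrArg Subtype.val hc⟩
  have hsum : ∑ᶠ y : {y : H // IsConj (x : G) (y : G)}, ψ y / ψ 1 = omega ψ x := by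
    rw [finsum_congr (g := fun _ => ψ x / ψ 1)
      (fun y => by rw [hψ.isConj ((hfus y.1).mp y.2)])]
    rw [finsum_eq_sum_of_fintype, Finset.sum_const, Finset.card_univ, ← Nat.card_eq_fintype_card,
      Nat.card_congr (Equiv.subtypeEquivRight hfus), nsmul_eq_mul]
    unfold omega
    ring
  rw [hsum] at hc
  have haO := hχ.omega_mem O (x : G)
  have hbO := hψ.omega_mem O x
  have hab : red O (omega χ (x : G)) = red O (omega ψ x) := (red_eq_iff haO hbO).mpr hc
  have ha0 : red O (omega χ (x : G)) ≠ 0 := fun h => hu ((red_eq_zero_iff haO).mp h)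
  have hb0 : red O (omega ψ x) ≠ 0 := hab ▸ ha0
  have hb : omega ψ x ∉ O.nonunits := fun h => hb0 (red_eq_zero h)
  refine ⟨hb, ?_⟩
  -- centralisers
  have hcen : Nat.card (Subgroup.centralizer ({(x : G)} : Set G)) =
      Nat.card (Subgroup.centralizer ({x} : Set H)) := by
    refine Nat.card_congr
      { toFun := fun g => ⟨⟨g.1, hx g.1 (by
          have h1 := Subgroup.mem_centralizer_singleton_iff.mp g.2
          have h2 : (g.1)⁻¹ * (x : G) * g.1 = x := by
            rw [mul_assoc, ← h1]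
            group
          rw [h2]
          exact x.2)⟩, by
          rw [Subgroup.mem_centralizer_singleton_iff]
          exact Subtype.ext (Subgroup.mem_centralizer_singleton_iff.mp g.2)⟩
        invFun := fun g => ⟨g.1.1, by
          rw [Subgroup.mem_centralizer_singleton_iff]
          exact congrArg Subtype.val (Subgroup.mem_centralizer_singleton_iff.mp g.2)⟩
        left_inv := fun g => rfl
        right_inv := fun g => rfl }
  have h1 := card_class_mul (x : G)
  have h2 := card_class_mul x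
  rw [hcen] at h1
  set cG := Nat.card {y : G // IsConj (x : G) y} with hcG
  set cH := Nat.card {y : H // IsConj x y} with hcH
  set C := Nat.card (Subgroup.centralizer ({x} : Set H)) with hC
  have hn0 : (n : ℂ) ≠ 0 := by rw [hn]; exact hχ.one_ne
  have hm0 : (m : ℂ) ≠ 0 := by rw [hm]; exact hψ.one_ne
  have ea : omega χ (x : G) * n = cG * χ x := by
    unfold omega
    rw [hn, div_mul_cancel₀ _ hχ.one_ne]
  have eb : omega ψ x * m = cH * ψ x := by
    unfold omega
    rw [hm, div_mul_cancel₀ _ hψ.one_ne]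
  have hG' : (Nat.card G : ℂ) = cG * C := by rw [← h1]; push_cast; ring
  have hH' : (Nat.card H : ℂ) = cH * C := by rw [← h2]; push_cast; ring
  have key : omega χ (x : G) * ((Nat.card H * n : ℕ) : ℂ) =
      ε * (omega ψ x * ((Nat.card G * m : ℕ) : ℂ)) := by
    push_cast
    rw [hG', hH']
    have e1 : omega χ (x : G) * ((cH : ℂ) * C * n) = (omega χ (x : G) * n) * (cH * C) := by ring
    have e2 : (ε : ℂ) * (omega ψ x * ((cG : ℂ) * C * m)) =
        ε * ((omega ψ x * m) * (cG * C)) := by ring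
    rw [e1, e2, ea, eb, he]
    ring
  -- p-parts
  have hpp : p.Prime := hp.out
  have hp0 : (p : ℂ) ≠ 0 := by exact_mod_cast hpp.ne_zero
  have hdec : ∀ u v : ℕ, u ≠ 0 → v ≠ 0 →
      u * v = p ^ (u.factorization p + v.factorization p) * (pPrimePart p u * pPrimePart p v) := by
    intro u v hu hv
    have e1 := Nat.ordProj_mul_ordCompl_eq_self u p
    have e2 := Nat.ordProj_mul_ordCompl_eq_self v p
    unfold pPrimePart
    conv_lhs => rw [← e1, ← e2]
    rw [pow_add]
    ring
  have hnd : ∀ u v : ℕ, u ≠ 0 → v ≠ 0 → ¬ p ∣ pPrimePart p u * pPrimePart p v := by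
    intro u v hu hv h
    rcases hpp.dvd_mul.mp h with h | h
    · exact Nat.not_dvd_ordCompl hpp hu h
    · exact Nat.not_dvd_ordCompl hpp hv h
  have hcH0 : Nat.card H ≠ 0 := Nat.card_pos.ne'
  have hcG0 : Nat.card G ≠ 0 := Nat.card_pos.ne'
  have hnn : n ≠ 0 := by exact_mod_cast hn0
  have hmm : m ≠ 0 := by exact_mod_cast hm0
  rw [hdec _ _ hcH0 hnn, hdec _ _ hcG0 hmm] at key
  have nd1 := hnd _ _ hcH0 hnn
  have nd2 := hnd _ _ hcG0 hmm
  set i := (Nat.card H).factorization p + n.factorization p with hi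
  set j := (Nat.card G).factorization p + m.factorization p with hj
  set n' := pPrimePart p (Nat.card H) * pPrimePart p n with hn'
  set m' := pPrimePart p (Nat.card G) * pPrimePart p m with hm'
  have r1 : red O (n' : ℂ) ≠ 0 := fun h => nd1 ((red_nat_eq_zero_iff hpO n').mp h)
  have r2 : red O (m' : ℂ) ≠ 0 := fun h => nd2 ((red_nat_eq_zero_iff hpO m').mp h)
  have hεO : (ε : ℂ) ∈ O := intCast_mem' ε
  have hεr : red O (ε : ℂ) ≠ 0 := by
    rcases hε with h | h
    · rw [h]
      push_cast
      rw [red_one]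
      exact one_ne_zero
    · rw [h]
      push_cast
      rw [red_neg O.one_mem, red_one]
      exact neg_ne_zero.mpr one_ne_zero
  push_cast at key
  have hrp : red O (p : ℂ) = 0 := red_eq_zero hpO
  have hpO' : (p : ℂ) ∈ O := nonunits_mem hpO
  have hnO : (n' : ℂ) ∈ O := natCast_mem' n'
  have hmO : (m' : ℂ) ∈ O := natCast_mem' m'
  have hpow : ∀ k : ℕ, (p : ℂ) ^ k ∈ O := fun k => pow_mem hpO' k
  have hij : j = i := by
    rcases lt_trichotomy i j with h | h | h
    · exfalso
      obtain ⟨d, hd⟩ := Nat.exists_eq_add_of_lt h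
      have e1 : omega χ (x : G) * (n' : ℂ) = p * ((p : ℂ) ^ d * (ε * (omega ψ x * m'))) := by
        have h3 : (p : ℂ) ^ i * (omega χ (x : G) * n') =
            (p : ℂ) ^ i * (p * ((p : ℂ) ^ d * (ε * (omega ψ x * m')))) := by
          have h4 : (p : ℂ) ^ j = (p : ℂ) ^ i * ((p : ℂ) ^ d * p) := by
            rw [hd]
            ring
          rw [h4] at key
          linear_combination key
        exact mul_left_cancel₀ (pow_ne_zero i hp0) h3
      have e2 := congrArg (red O) e1
      rw [red_mul haO hnO, red_mul hpO' (O.mul_mem _ _ (hpow d) (O.mul_mem _ _ hεO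
        (O.mul_mem _ _ hbO hmO))), hrp, zero_mul] at e2
      exact mul_ne_zero ha0 r1 e2
    · exact h.symm
    · exfalso
      obtain ⟨d, hd⟩ := Nat.exists_eq_add_of_lt h
      have e1 : (ε : ℂ) * (omega ψ x * m') = p * ((p : ℂ) ^ d * (omega χ (x : G) * n')) := by
        have h3 : (p : ℂ) ^ j * ((ε : ℂ) * (omega ψ x * m')) =
            (p : ℂ) ^ j * (p * ((p : ℂ) ^ d * (omega χ (x : G) * n'))) := by
          have h4 : (p : ℂ) ^ i = (p : ℂ) ^ j * ((p : ℂ) ^ d * p) := by
            rw [hd]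
            ring
          rw [h4] at key
          linear_combination -key
        exact mul_left_cancel₀ (pow_ne_zero j hp0) h3
      have e2 := congrArg (red O) e1
      rw [red_mul hεO (O.mul_mem _ _ hbO hmO), red_mul hbO hmO, red_mul hpO'
        (O.mul_mem _ _ (hpow d) (O.mul_mem _ _ haO hnO)), hrp, zero_mul] at e2
      exact mul_ne_zero hεr (mul_ne_zero hb0 r2) e2
  refine ⟨hij, ?_⟩
  rw [hij] at key
  have e1 : omega χ (x : G) * n' = ε * (omega ψ x * m') := by
    have h3 : (p : ℂ) ^ i * (omega χ (x : G) * n') = (p : ℂ) ^ i * (ε * (omega ψ x * m')) := by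
      linear_combination key
    exact mul_left_cancel₀ (pow_ne_zero i hp0) h3
  have e2 := congrArg (red O) e1
  rw [red_mul haO hnO, red_mul hεO (O.mul_mem _ _ hbO hmO), red_mul hbO hmO, hab] at e2
  have e3 : red O (n' : ℂ) = red O (ε : ℂ) * red O (m' : ℂ) := by
    apply mul_left_cancel₀ hb0
    rw [e2]
    ring
  rw [red_natCast, red_natCast, red_intCast] at e3
  have := charP_RF hpO
  have e4 : ((m' : ℤ) : RF O) = ((ε * (n' : ℤ) : ℤ) : RF O) := by
    push_cast
    rw [e3]
    have h5 : (ε : RF O) * (ε : RF O) = 1 := by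
      rcases hε with h | h <;> rw [h] <;> push_cast <;> ring
    rw [← mul_assoc, h5, one_mul]
  exact (CharP.intCast_eq_intCast (RF O) p).mp e4

theorem t_DEF : Pool.Agent.Q17.DC.S_DEF := by
  intro G _ _ H p _ O hpO x hx χ ψ ε hχ hψ hε he hc hu n m hn hm
  exact def_res H p O hpO x hx χ ψ ε hχ hψ hε he hc hu n m hn hm

end Pool.Agent.Q111.DC
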