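import Pool.Agent.Q17.DC.Stm

/-! # Project DC, job GDT: induced central characters as sums over classes -/

set_option autoImplicit false
set_option linter.unusedSectionVars false

open scoped BigOperators Classical
open Pool.Agent.H254R3.IN Pool.Agent.Helper884 Pool.Agent.Q17.DC

noncomputable section

namespace Pool.Agent.Q111.DC

section trs

variable {Γ : Type} [Group Γ] [Fintype Γ]

lemma indc_filter (G L : Subgroup Γ) (χ : L → ℂ) (x : Γ) :
    indc G L χ x =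
      ∑ y ∈ Finset.univ.filter (fun y : L => ∃ g ∈ G, g * x * g⁻¹ = (y : Γ)), χ y / χ 1 := by
  unfold indc
  rw [finsum_eq_sum_of_fintype,
    ← Finset.sum_subtype (p := fun y : L => ∃ g ∈ G, g * x * g⁻¹ = (y : Γ))
      (Finset.univ.filter (fun y : L => ∃ g ∈ G, g * x * g⁻¹ = (y : Γ))) (by simp)
      (fun y => χ y / χ 1)]

lemma pred_conj {G L : Subgroup Γ} (hL : L ≤ G) (x : Γ) (y z : L) (h : IsConj y z) :
    (∃ g ∈ G, g * x * g⁻¹ = (y : Γ)) ↔ (∃ g ∈ G, g * x * g⁻¹ = (z : Γ)) := by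
  obtain ⟨c, hc⟩ := isConj_iff.mp h
  have hc' : (c : Γ) * y * (c : Γ)⁻¹ = z := congrArg Subtype.val hc
  constructor
  · rintro ⟨g, hg, e⟩
    refine ⟨c * g, G.mul_mem (hL c.2) hg, ?_⟩
    rw [← hc', ← e]
    group
  · rintro ⟨g, hg, e⟩
    refine ⟨(c : Γ)⁻¹ * g, G.mul_mem (G.inv_mem (hL c.2)) hg, ?_⟩
    have e2 : (y : Γ) = (c : Γ)⁻¹ * z * c := by
      rw [← hc']
      group
    rw [e2, ← e]
    group

lemma indc_classes {G L : Subgroup Γ} (hL : L ≤ G) {χ : L → ℂ} (hχ : IsIrr χ) (x : Γ) :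
    indc G L χ x = ∑ K ∈ Finset.univ.filter
      (fun K : ConjClasses L => ∃ g ∈ G, g * x * g⁻¹ = ((rep K : L) : Γ)), omega χ (rep K) := by
  rw [indc_filter]
  exact sum_pred (fun y : L => ∃ g ∈ G, g * x * g⁻¹ = (y : Γ)) (pred_conj hL x) hχ

theorem gdt (O : ValuationSubring ℂ) (G L : Subgroup Γ) (hL : L ≤ G) (χ : L → ℂ)
    (hχ : IsIrr χ) (x : Γ) (h : indc G L χ x ∉ O.nonunits) :
    ∃ y : L, (∃ g ∈ G, g * x * g⁻¹ = (y : Γ)) ∧ omega χ y ∉ O.nonunits := by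
  by_contra hcon
  push Not at hcon
  apply h
  rw [indc_classes hL hχ]
  refine sum_mem fun K hK => ?_
  exact hcon (rep K) (Finset.mem_filter.mp hK).2

end trs

theorem t_GDT : Pool.Agent.Q17.DC.S_GDT := by
  intro Γ _ _ O G L hL χ hχ x h
  exact gdt O G L hL χ hχ x h

end Pool.Agent.Q111.DC
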