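import Pool.Agent.Q17.DC.Stm

/-! # Project DC, job POW: expansion of a power in a noncommutative ring -/

set_option autoImplicit false

namespace Pool.Agent.Q111.DC

theorem pow_expand {E Λ : Type} [Ring E] [Fintype Λ] (T : Λ → E) (M : ℕ) :
    (∑ l, T l) ^ M = ∑ w : Fin M → Λ, (List.ofFn fun i => T (w i)).prod := by
  induction M with
  | zero => simp
  | succ M ih =>
    rw [pow_succ', ih, Finset.sum_mul_sum, ← Finset.sum_product', Finset.univ_product_univ,
      ← (Fin.consEquiv (fun _ : Fin (M + 1) => Λ)).sum_comp]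
    refine Finset.sum_congr rfl fun z _ => ?_
    rw [List.ofFn_succ, List.prod_cons]
    rfl

theorem t_POW : Pool.Agent.Q17.DC.S_POW := fun _ _ _ _ T M => pow_expand T M

end Pool.Agent.Q111.DC
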