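import Pool.Agent.Q17.DC.Stm

/-! # Project DC, job PRT: every function is the sum of its block components -/

set_option autoImplicit false
set_option linter.unusedSectionVars false

open scoped BigOperators Classical
open Pool.Agent.H254R3.IN Pool.Agent.Helper884

noncomputable section

namespace Pool.Agent.Q111.DC

section prt

variable {A : Type} [Group A] [Fintype A]

/-- the block of a character -/
def Bl (O : ValuationSubring ℂ) (χ : A → ℂ) : Set (A → ℂ) :=
  {ψ | IsIrr ψ ∧ ∀ x : A, omega ψ x - omega χ x ∈ O.nonunits}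

lemma Bl_eq {O : ValuationSubring ℂ} {χ ψ : A → ℂ} (h : ψ ∈ Bl O χ) : Bl O χ = Bl O ψ := by
  ext φ
  constructor
  · rintro ⟨h1, h2⟩
    refine ⟨h1, fun x => ?_⟩
    have : omega φ x - omega ψ x = (omega φ x - omega χ x) + -(omega ψ x - omega χ x) := by ring
    rw [this]
    exact O.nonunits.add_mem (h2 x) (O.nonunits.neg_mem (h.2 x))
  · rintro ⟨h1, h2⟩
    refine ⟨h1, fun x => ?_⟩
    have : omega φ x - omega χ x = (omega φ x - omega ψ x) + (omega ψ x - omega χ x) := by ring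
    rw [this]
    exact O.nonunits.add_mem (h2 x) (h.2 x)

lemma mem_Bl_self {O : ValuationSubring ℂ} {χ : A → ℂ} (h : IsIrr χ) : χ ∈ Bl O χ :=
  ⟨h, fun x => by rw [sub_self]; exact O.nonunits.zero_mem⟩

lemma Bl_block {O : ValuationSubring ℂ} {χ : A → ℂ} (h : IsIrr χ) : IsBlock O (Bl O χ) :=
  ⟨χ, h, rfl⟩

lemma Bl_irr {O : ValuationSubring ℂ} {χ : A → ℂ} : ∀ ψ ∈ Bl O χ, IsIrr ψ := fun _ h => h.1

/-- the blocks -/
def Bls (O : ValuationSubring ℂ) : Finset (Set (A → ℂ)) := (IC.Irr A).image (Bl O)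

lemma Om_sum {ι : Type} (s : Finset ι) (f : ι → A → ℂ) (χ : A → ℂ) :
    Om (fun g => ∑ i ∈ s, f i g) χ = ∑ i ∈ s, Om (f i) χ := by
  unfold Om
  simp only [Finset.sum_mul]
  rw [Finset.sum_comm, Finset.sum_div]

lemma sum_blocks (O : ValuationSubring ℂ) :
    (fun t : A => ∑ β ∈ Bls O, blockCoeff β t) = dl := by
  have hirr : ∀ β ∈ Bls (A := A) O, ∀ ψ ∈ β, IsIrr ψ := by
    intro β hβ
    obtain ⟨χ, -, rfl⟩ := Finset.mem_image.mp hβ
    exact Bl_irr
  apply eq_of_Om
  · intro g y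
    exact Finset.sum_congr rfl fun β hβ => blockCoeff_cl (hirr β hβ) g y
  · exact dl_cl
  · intro ψ hψ
    have h1 : Om (fun t : A => ∑ β ∈ Bls O, blockCoeff β t) ψ =
        ∑ β ∈ Bls O, Om (blockCoeff β) ψ := Om_sum _ _ _
    rw [h1, Om_dl hψ, Finset.sum_eq_single (Bl O ψ)]
    · rw [Om_blockCoeff Bl_irr hψ, if_pos (mem_Bl_self hψ)]
    · intro β hβ hne
      rw [Om_blockCoeff (hirr β hβ) hψ, if_neg]
      intro hmem
      apply hne
      obtain ⟨χ, -, rfl⟩ := Finset.mem_image.mp hβ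
      exact Bl_eq hmem
    · intro hn
      exact absurd (Finset.mem_image_of_mem _ (mem_Irr.mpr hψ)) hn

theorem part (O : ValuationSubring ℂ) (h : A → ℂ) (g : A) (hg : h g ≠ 0) :
    ∃ β : Set (A → ℂ), IsBlock O β ∧ ∑ t : A, blockCoeff β t * h (g * t) ≠ 0 := by
  by_contra hcon
  push Not at hcon
  apply hg
  have h1 : ∑ β ∈ Bls (A := A) O, ∑ t : A, blockCoeff β t * h (g * t) = 0 := by
    apply Finset.sum_eq_zero
    intro β hβ
    obtain ⟨χ, hχ, rfl⟩ := Finset.mem_image.mp hβ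
    exact hcon _ (Bl_block (mem_Irr.mp hχ))
  rw [Finset.sum_comm] at h1
  have h2 : ∀ t : A, ∑ β ∈ Bls (A := A) O, blockCoeff β t * h (g * t) = dl t * h (g * t) := by
    intro t
    rw [← Finset.sum_mul, ← congrFun (sum_blocks (A := A) O) t]
  simp only [h2] at h1
  unfold dl at h1
  simpa using h1

end prt

theorem t_PRT : Pool.Agent.Q17.DC.S_PRT := by
  intro A _ _ O h g hg
  exact part O h g hg

end Pool.Agent.Q111.DC
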