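import Pool.Agent.Q111.DC.GDT

/-! # Project DC, job TRS: induction of blocks in stages -/

set_option autoImplicit false
set_option linter.unusedSectionVars false

open scoped BigOperators Classical
open Pool.Agent.H254R3.IN Pool.Agent.Helper884 Pool.Agent.Q17.DC

noncomputable section

namespace Pool.Agent.Q111.DC

section trs

variable {Γ : Type} [Group Γ] [Fintype Γ]

lemma conj_iff' {L L' : Subgroup Γ} (h : L' ≤ L) (z : L) (y : L') :
    (∃ g ∈ L, g * (z : Γ) * g⁻¹ = (y : Γ)) ↔ IsConj z (⟨y, h y.2⟩ : L) := by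
  rw [isConj_iff]
  constructor
  · rintro ⟨g, hg, e⟩
    exact ⟨⟨g, hg⟩, Subtype.ext e⟩
  · rintro ⟨g, e⟩
    exact ⟨g, g.2, congrArg Subtype.val e⟩

lemma stages {G L L' : Subgroup Γ} (hL : L ≤ G) (hL' : L' ≤ L) (ψ : L' → ℂ) (x : Γ) :
    ∑ K ∈ Finset.univ.filter
      (fun K : ConjClasses L => ∃ g ∈ G, g * x * g⁻¹ = ((rep K : L) : Γ)),
        indc L L' ψ ((rep K : L) : Γ) = indc G L' ψ x := by
  rw [indc_filter G L' ψ x]
  have h1 : ∀ K ∈ Finset.univ.filter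
      (fun K : ConjClasses L => ∃ g ∈ G, g * x * g⁻¹ = ((rep K : L) : Γ)),
        indc L L' ψ ((rep K : L) : Γ) =
          ∑ y ∈ Finset.univ.filter (fun y : L' => ∃ g ∈ G, g * x * g⁻¹ = (y : Γ)),
            if IsConj (rep K) (⟨y, hL' y.2⟩ : L) then ψ y / ψ 1 else 0 := by
    intro K hK
    rw [indc_filter, Finset.sum_filter, Finset.sum_filter]
    refine Finset.sum_congr rfl fun y _ => ?_
    by_cases h2 : IsConj (rep K) (⟨y, hL' y.2⟩ : L)
    · rw [if_pos h2, if_pos ((conj_iff' hL' (rep K) y).mpr h2),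
        if_pos ((pred_conj hL x (rep K) ⟨y, hL' y.2⟩ h2).mp (Finset.mem_filter.mp hK).2)]
    · rw [if_neg h2, ite_self, if_neg (fun h => h2 ((conj_iff' hL' (rep K) y).mp h))]
  rw [Finset.sum_congr rfl h1, Finset.sum_comm]
  refine Finset.sum_congr rfl fun y hy => ?_
  have hy' := (Finset.mem_filter.mp hy).2
  rw [Finset.sum_eq_single (ConjClasses.mk (⟨y, hL' y.2⟩ : L))]
  · rw [if_pos (rep_mk _)]
  · intro K _ hne
    rw [if_neg]
    intro hc
    exact hne ((mk_eq_iff _ _).mpr hc).symm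
  · intro hn
    exfalso
    apply hn
    refine Finset.mem_filter.mpr ⟨Finset.mem_univ _, ?_⟩
    exact (pred_conj hL x _ _ (rep_mk (⟨y, hL' y.2⟩ : L))).mpr hy'

theorem trs (O : ValuationSubring ℂ) (G L L' : Subgroup Γ) (hL : L ≤ G) (hL' : L' ≤ L)
    (χ : L → ℂ) (hχ : IsIrr χ) (ψ : L' → ℂ)
    (h : ∀ x : L, omega χ x - indc L L' ψ (x : Γ) ∈ O.nonunits) (x : Γ) :
    indc G L χ x - indc G L' ψ x ∈ O.nonunits := by
  rw [indc_classes hL hχ, ← stages hL hL' ψ x, ← Finset.sum_sub_distrib]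
  exact sum_mem fun K _ => h (rep K)

end trs

theorem t_TRS : Pool.Agent.Q17.DC.S_TRS := by
  intro Γ _ _ O G L L' hL hL' χ hχ ψ _ h x
  exact trs O G L L' hL hL' χ hχ ψ h x

end Pool.Agent.Q111.DC
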