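import Pool.Agent.Q17.DC.Stm

/-! # Project DC, job UNIT: invertible elements in a block -/

set_option autoImplicit false
set_option linter.unusedSectionVars false

open scoped BigOperators Classical
open Pool.Agent.H254R3.IN Pool.Agent.Helper884

noncomputable section

namespace Pool.Agent.Q111.DC

theorem unit_inv {A : Type} [Group A] [Fintype A] (O : ValuationSubring ℂ)
    (β : Set (A → ℂ)) (hβ : IsBlock O β) (κ : A → ℂ) (hκ : IsCl κ) (hκO : ∀ t, κ t ∈ O)
    (φ : A → ℂ) (hφ : φ ∈ β) (hu : Om κ φ ∉ O.nonunits) :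
    ∃ f : A → ℂ, IsCl f ∧ (∀ t, f t ∈ O) ∧ conv κ f = blockCoeff β := by
  have hirr := hβ.irr
  have hmem : ∀ φ' : A → ℂ, IsIrr φ' → Om κ φ' ∈ O := fun φ' h => (red_Om h hκ hκO).1
  have hred : ∀ φ' ∈ β, red O (Om κ φ') ≠ 0 := by
    intro φ' h'
    have h1 : red O (Om κ φ') = red O (Om κ φ) := by
      rw [(red_Om (hirr _ h') hκ hκO).2, (red_Om (hirr _ hφ) hκ hκO).2]
      refine Finset.sum_congr rfl fun K _ => ?_
      rw [hβ.red_eq h' hφ]
    rw [h1]
    intro h0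
    exact hu ((red_eq_zero_iff (hmem _ (hirr _ hφ))).mp h0)
  have key : ∀ T : Finset (A → ℂ), (∀ ψ ∈ T, ψ ∈ β) → ∃ P b : A → ℂ, IsCl P ∧ IsCl b ∧
      (∀ t, P t ∈ O) ∧ (∀ t, b t ∈ O) ∧ red O (∏ ψ ∈ T, (- Om κ ψ)) ≠ 0 ∧
      ∀ φ', IsIrr φ' → Om P φ' = ∏ ψ ∈ T, (Om κ φ' - Om κ ψ) ∧
        Om κ φ' * Om b φ' = Om P φ' - ∏ ψ ∈ T, (- Om κ ψ) := by
    intro T
    induction T using Finset.induction_on with
    | empty =>
      intro _
      refine ⟨dl, fun _ => 0, dl_cl, fun _ _ => rfl, dl_mem O, fun _ => O.zero_mem, ?_, ?_⟩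
      · rw [Finset.prod_empty, red_one]
        exact one_ne_zero
      · intro φ' h'
        refine ⟨by rw [Om_dl h', Finset.prod_empty], ?_⟩
        rw [Om_dl h', Finset.prod_empty, sub_self]
        unfold Om
        simp
    | insert a s ha ih =>
      intro hT
      obtain ⟨P, b, hP, hb, hPO, hbO, hr, hOm⟩ :=
        ih fun ψ hψ => hT ψ (Finset.mem_insert_of_mem hψ)
      have haB := hT a (Finset.mem_insert_self a s)
      have h1 : Om κ a ∈ O := hmem a (hirr a haB)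
      have hcl : IsCl (fun g : A => κ g - Om κ a * dl g) := by
        intro g y
        change κ (y * g * y⁻¹) - Om κ a * dl (y * g * y⁻¹) = κ g - Om κ a * dl g
        rw [hκ g y, dl_cl g y]
      have hmem' : ∀ g : A, κ g - Om κ a * dl g ∈ O := fun g =>
        sub_mem' (hκO g) (O.mul_mem _ _ h1 (dl_mem O g))
      have hOm' : ∀ ψ, IsIrr ψ → Om (fun g : A => κ g - Om κ a * dl g) ψ = Om κ ψ - Om κ a := by
        intro ψ hψ
        rw [Om_sub, Om_smul, Om_dl hψ, mul_one]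
      set pr : ℂ := ∏ ψ ∈ s, (- Om κ ψ) with hpr
      have hprO : pr ∈ O := (inv_mem_of_red_ne hr).1
      refine ⟨conv P (fun g => κ g - Om κ a * dl g),
        fun g => conv b (fun g => κ g - Om κ a * dl g) g - (-pr) * dl g, hP.conv hcl, ?_,
        conv_mem hPO hmem', ?_, ?_, ?_⟩
      · intro g y
        change conv b (fun g => κ g - Om κ a * dl g) (y * g * y⁻¹) - (-pr) * dl (y * g * y⁻¹) =
          conv b (fun g => κ g - Om κ a * dl g) g - (-pr) * dl g
        rw [(hb.conv hcl) g y, dl_cl g y]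
      · intro t
        exact sub_mem' (conv_mem hbO hmem' t) (O.mul_mem _ _ (O.neg_mem _ hprO) (dl_mem O t))
      · rw [Finset.prod_insert ha, red_mul (O.neg_mem _ h1) hprO, red_neg h1]
        exact mul_ne_zero (neg_ne_zero.mpr (hred a haB)) hr
      · intro φ' h'
        obtain ⟨e1, e2⟩ := hOm φ' h'
        refine ⟨?_, ?_⟩
        · rw [Om_conv h' hP hcl, hOm' φ' h', e1, Finset.prod_insert ha, mul_comm]
        · rw [Om_conv h' hP hcl, Om_sub, Om_smul, Om_dl h', Om_conv h' hb hcl, hOm' φ' h',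
            Finset.prod_insert ha, ← hpr]
          linear_combination (Om κ φ' - Om κ a) * e2
  obtain ⟨P, b, hP, hb, hPO, hbO, hr, hOm⟩ := key ((IC.Irr A).filter (· ∈ β)) (by
    intro ψ hψ
    rw [Finset.mem_filter] at hψ
    exact hψ.2)
  set pr : ℂ := ∏ ψ ∈ (IC.Irr A).filter (· ∈ β), (- Om κ ψ) with hpr
  obtain ⟨hprO, hprO', hpr0⟩ := inv_mem_of_red_ne hr
  have hbc := blockCoeff_cl hirr
  have hf : IsCl (fun g : A => (-pr⁻¹) * conv b (blockCoeff β) g) := by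
    intro g y
    change (-pr⁻¹) * conv b (blockCoeff β) (y * g * y⁻¹) = (-pr⁻¹) * conv b (blockCoeff β) g
    rw [(hb.conv hbc) g y]
  refine ⟨fun g => (-pr⁻¹) * conv b (blockCoeff β) g, hf, fun t =>
    O.mul_mem _ _ (O.neg_mem _ hprO') (conv_mem hbO (blockCoeff_mem hβ) t), ?_⟩
  apply eq_of_Om (hκ.conv hf) hbc
  intro ψ hψ
  rw [Om_conv hψ hκ hf, Om_smul, Om_conv hψ hb hbc, Om_blockCoeff hirr hψ]
  obtain ⟨e1, e2⟩ := hOm ψ hψ
  by_cases hB : ψ ∈ β
  · rw [if_pos hB]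
    have h0 : Om P ψ = 0 := by
      rw [e1]
      exact Finset.prod_eq_zero (Finset.mem_filter.mpr ⟨mem_Irr.mpr hψ, hB⟩) (sub_self _)
    rw [h0, zero_sub] at e2
    have : Om κ ψ * (-pr⁻¹ * (Om b ψ * 1)) = -pr⁻¹ * (Om κ ψ * Om b ψ) := by ring
    rw [this, e2, neg_mul_neg, inv_mul_cancel₀ hpr0]
  · rw [if_neg hB]
    ring

theorem t_UNIT : Pool.Agent.Q17.DC.S_UNIT := by
  intro A _ _ O β hβ κ hκ hκO φ hφ hu
  exact unit_inv O β hβ κ hκ hκO φ hφ hu

end Pool.Agent.Q111.DC
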